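import Mathlib

set_option autoImplicit false

namespace Pool.Agent.H.MP_2b0d5b_co

open Finset

lemma col_iff {V : Type} (G : SimpleGraph V) (k : ℕ) :
    G.Colorable k ↔ ∃ φ : V → Fin k, ∀ a b, G.Adj a b → φ a ≠ φ b :=
  ⟨fun ⟨C⟩ => ⟨C, fun _ _ h => C.valid h⟩,
   fun ⟨φ, h⟩ => ⟨SimpleGraph.Coloring.mk φ (fun {a b} hab => h a b hab)⟩⟩

/-- an edge-minimal non-`k`-colourable subgraph keeps every critical edge -/
theorem generic0 {V : Type} [Fintype V] [DecidableEq V] (G0 : SimpleGraph V) (k d : ℕ)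
    (h5 : G0.Colorable (k + 1)) (h4 : ¬ G0.Colorable k)
    (crit : ∀ v, ∃ S : Finset V, d ≤ S.card ∧ ∀ u ∈ S, (G0.deleteEdges {s(v, u)}).Colorable k) :
    ∃ G : SimpleGraph V, G.Colorable (k + 1) ∧ ¬ G.Colorable k ∧
      (∀ e ∈ G.edgeSet, (G.deleteEdges {e}).Colorable k) ∧
      ∀ v, d ≤ (G.neighborSet v).ncard := by
  classical
  obtain ⟨H, hH, hmin⟩ := Finset.exists_min_image
    (Finset.univ.filter fun H : SimpleGraph V => H ≤ G0 ∧ ¬ H.Colorable k)
    (fun H => H.edgeSet.ncard) ⟨G0, by simp [h4]⟩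
  simp only [Finset.mem_filter, Finset.mem_univ, true_and] at hH hmin
  refine ⟨H, h5.mono_left hH.1, hH.2, fun e he => ?_, fun v => ?_⟩
  · by_contra hc
    have h1 := hmin (H.deleteEdges {e}) ⟨(H.deleteEdges_le _).trans hH.1, hc⟩
    rw [SimpleGraph.edgeSet_deleteEdges] at h1
    have h2 := Set.ncard_diff_singleton_lt_of_mem he (Set.toFinite _)
    omega
  · obtain ⟨S, hS, hc⟩ := crit v
    have hsub : (S : Set V) ⊆ H.neighborSet v := by
      intro u hu
      by_contra hn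
      apply hH.2
      refine (hc u hu).mono_left ?_
      intro a b hab
      rw [SimpleGraph.deleteEdges_adj]
      refine ⟨hH.1 hab, fun h => hn ?_⟩
      rw [Set.mem_singleton_iff, Sym2.eq_iff] at h
      rcases h with ⟨rfl, rfl⟩ | ⟨rfl, rfl⟩
      · exact hab
      · exact hab.symm
    have := Set.ncard_le_ncard hsub (Set.toFinite _)
    rw [Set.ncard_coe_finset] at this
    omega

theorem generic {V : Type} [Fintype V] [DecidableEq V] (R : V → V → Prop) (k d : ℕ)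
    (h5 : ∃ φ : V → Fin (k + 1), ∀ a b, R a b → φ a ≠ φ b)
    (h4 : ∀ φ : V → Fin k, ∃ a b, R a b ∧ φ a = φ b)
    (crit : ∀ v, ∃ S : Finset V, d ≤ S.card ∧ ∀ u ∈ S, ∃ φ : V → Fin k, ∀ a b, R a b → φ a = φ b →
      (a = v ∧ b = u) ∨ (a = u ∧ b = v)) :
    ∃ G : SimpleGraph (Fin (Fintype.card V)), G.Colorable (k + 1) ∧ ¬ G.Colorable k ∧
      (∀ e ∈ G.edgeSet, (G.deleteEdges {e}).Colorable k) ∧
      ∀ v, d ≤ (G.neighborSet v).ncard := by
  let e := Fintype.equivFin V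
  obtain ⟨φ5, h5⟩ := h5
  apply generic0 (SimpleGraph.fromRel fun a b => R (e.symm a) (e.symm b)) k d
  · rw [col_iff]
    refine ⟨fun a => φ5 (e.symm a), fun a b hab => ?_⟩
    rw [SimpleGraph.fromRel_adj] at hab
    rcases hab.2 with h | h
    · exact h5 _ _ h
    · exact (h5 _ _ h).symm
  · rw [col_iff]
    rintro ⟨φ, hφ⟩
    obtain ⟨a, b, hab, h⟩ := h4 (fun a => φ (e a))
    refine hφ (e a) (e b) ?_ h
    rw [SimpleGraph.fromRel_adj]
    refine ⟨fun h' => h5 a b hab (by rw [e.injective h']), Or.inl (by simpa using hab)⟩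
  · intro v
    obtain ⟨S, hS, hc⟩ := crit (e.symm v)
    refine ⟨S.map e.toEmbedding, by simpa using hS, fun u hu => ?_⟩
    obtain ⟨u', hu', rfl⟩ := Finset.mem_map.1 hu
    obtain ⟨φ, hφ⟩ := hc u' hu'
    rw [col_iff]
    refine ⟨fun a => φ (e.symm a), fun a b hab h => ?_⟩
    rw [SimpleGraph.deleteEdges_adj, SimpleGraph.fromRel_adj] at hab
    apply hab.2
    rw [Set.mem_singleton_iff, Sym2.eq_iff]
    have key : ∀ a b, R (e.symm a) (e.symm b) → φ (e.symm a) = φ (e.symm b) →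
        (a = v ∧ b = e u') ∨ (a = e u' ∧ b = v) := by
      intro a b h1 h2
      rcases hφ _ _ h1 h2 with ⟨h3, h4⟩ | ⟨h3, h4⟩
      · exact Or.inl ⟨e.symm.injective h3, by rw [← h4]; simp⟩
      · exact Or.inr ⟨by rw [← h3]; simp, e.symm.injective h4⟩
    rcases hab.1.2 with h1 | h1
    · exact key a b h1 h
    · rcases key b a h1 h.symm with ⟨h3, h4⟩ | ⟨h3, h4⟩
      · exact Or.inr ⟨h4, h3⟩
      · exact Or.inl ⟨h4, h3⟩

end Pool.Agent.H.MP_2b0d5b_co
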