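import Pool.Agent.H.MP_2b0d5b_co.Generic

set_option autoImplicit false

namespace Pool.Agent.H.MP_2b0d5b_co

open Finset

abbrev V (M : ℕ) := (Fin 4 × Fin (2 * M + 1)) ⊕ (Fin 4 × Fin M) ⊕ Unit

/-- four odd cycles `X k`, four independent sets `Y k` (complete to `X k`), one extra vertex -/
def R (M : ℕ) : V M → V M → Prop
  | .inl (k, i), .inl (k', i') => k = k' ∧ (i'.val = i.val + 1 ∨ (i.val = 2 * M ∧ i'.val = 0))
  | .inl (k, i), .inr (.inl (k', j)) => k' = k ∨ (k' = k + 1 ∧ (i.val = j.val ∨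
      (M ≤ i.val ∧ j.val = 0 ∧ (k.val % 2 = 1 ∨ (k.val = 0 ∧ i.val ≤ M + 1)))))
  | .inl (k, i), .inr (.inr _) => k.val % 2 = 0 ∧ M ≤ i.val
  | .inr (.inl (k, j)), .inr (.inl (k', j')) => k = 1 ∧ k' = 3 ∧ j.val = 1 ∧ j'.val = 1
  | _, _ => False

def alt (p u a i : ℕ) : ℕ :=
  if i = p then u else if (i < p ∧ i % 2 = 1) ∨ (p < i ∧ i % 2 = 0) then a else 3

def col (M : ℕ) (α p u a : Fin 4 → ℕ) (ω : ℕ) (k0 : Fin 4) (j0 c : ℕ) : V M → ℕ
  | .inl (k, i) => alt (p k) (u k) (a k) i.val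
  | .inr (.inl (k, j)) => if k = k0 ∧ j.val = j0 then c else α k
  | .inr (.inr _) => ω

lemma alt_ne (M p u a i i' : ℕ) (hp : p ≤ 2 * M) (hu : u ≠ a ∧ u ≠ 3 ∧ a ≠ 3)
    (h : i' = i + 1 ∨ (i = 2 * M ∧ i' = 0)) (hM : 1 ≤ M) : alt p u a i ≠ alt p u a i' := by
  unfold alt
  split_ifs <;> omega

lemma col_ok (M : ℕ) (α p u a : Fin 4 → ℕ) (ω : ℕ) (k0 : Fin 4) (j0 c : ℕ) (ex : Prop) (hM : 2 ≤ M)
    (hp : ∀ k, p k ≤ 2 * M)
    (hu : ∀ k, u k ≠ a k ∧ u k ≠ 3 ∧ a k ≠ 3)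
    (hα : ∀ k, α k ≠ u k ∧ α k ≠ a k ∧ α k ≠ 3)
    (hc : c ≠ a k0 ∧ c ≠ 3)
    (hs : ∀ k, α (k + 1) ≠ a k)
    (hsu : ∀ k, α (k + 1) = u k → (k + 1 = k0 ∧ p k = j0 ∧ j0 < M) ∨
      (k.val % 2 = 0 ∧ M ≤ p k ∧ (k.val = 0 → M + 2 ≤ p k)))
    (hcs : ∀ k, k + 1 = k0 → c ≠ u k ∧ (c ≠ a k ∨ (j0 ≠ 0 ∧ p k = j0)))
    (hω : ∀ k : Fin 4, k.val % 2 = 0 → ω ≠ a k ∧ ω ≠ 3 ∧ (ω = u k → p k < M ∨ (ex ∧ k = 2)))
    (hE : (if (1 : Fin 4) = k0 ∧ 1 = j0 then c else α 1) ≠ (if (3 : Fin 4) = k0 ∧ 1 = j0 then c else α 3))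
    (s t : V M) (hR : R M s t)
    (h : col M α p u a ω k0 j0 c s = col M α p u a ω k0 j0 c t) :
    (∃ i j, s = .inl (k0, i) ∧ t = .inr (.inl (k0, j)) ∧ i.val = p k0 ∧ j.val = j0) ∨
    (ex ∧ ∃ i, s = .inl (2, i) ∧ t = .inr (.inr ()) ∧ i.val = p 2) := by
  rcases s with ⟨k, i⟩ | ⟨k, j⟩ | s <;> rcases t with ⟨k', i'⟩ | ⟨k', j'⟩ | t <;>
    simp only [R] at hR
  · obtain ⟨rfl, hR⟩ := hR
    exact absurd h (alt_ne M _ _ _ _ _ (hp k) (hu k) hR (by omega))
  · rcases hR with rfl | ⟨rfl, hR⟩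
    · have := hα k'
      simp only [col, alt] at h
      by_cases hd : k' = k0 ∧ j'.val = j0
      · obtain ⟨rfl, hj⟩ := hd
        refine Or.inl ⟨i, j', rfl, rfl, ?_, hj⟩
        simp only [hj, and_self, if_true] at h
        split_ifs at h <;> omega
      · exfalso
        rw [if_neg hd] at h
        split_ifs at h <;> omega
    · exfalso
      have h1 := hα (k + 1)
      have h2 := hs k
      have h3 := hsu k
      have h4 := hcs k
      have h5 := j'.isLt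
      simp only [col, alt] at h
      by_cases hd : k + 1 = k0 ∧ j'.val = j0
      · rw [if_pos hd] at h
        have h6 := h4 hd.1
        have h7 := hd.2
        split_ifs at h <;> omega
      · rw [if_neg hd] at h
        split_ifs at h with g1 g2
        · rcases h3 h.symm with ⟨e1, e2, e3⟩ | h3
          · apply hd
            exact ⟨e1, by omega⟩
          · omega
        · omega
        · omega
  · have h1 := hω k hR.1
    simp only [col, alt] at h
    split_ifs at h with g1 g2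
    · rcases h1.2.2 h.symm with h2 | ⟨h2, rfl⟩
      · omega
      · exact Or.inr ⟨h2, i, rfl, rfl, g1⟩
    · omega
    · omega
  · obtain ⟨rfl, rfl, h1, h2⟩ := hR
    exfalso
    simp only [col, h1, h2] at h
    exact hE h

lemma col_lt (M : ℕ) (α p u a : Fin 4 → ℕ) (ω : ℕ) (k0 : Fin 4) (j0 c n : ℕ) (hn : 3 < n)
    (h1 : ∀ k, α k < n ∧ u k < n ∧ a k < n) (h2 : ω < n) (h3 : c < n) (s : V M) :
    col M α p u a ω k0 j0 c s < n := by
  rcases s with ⟨k, i⟩ | ⟨k, j⟩ | s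
  · have := h1 k
    simp only [col, alt]
    split_ifs <;> omega
  · have := h1 k
    simp only [col]
    split_ifs <;> omega
  · exact h2

/-- the dense edges are critical -/
lemma dense (M : ℕ) (hM : 2 ≤ M) (k : Fin 4) (i : Fin (2 * M + 1)) (j : Fin M) :
    ∃ φ : V M → Fin 4, ∀ s t, R M s t → φ s = φ t →
      s = .inl (k, i) ∧ t = .inr (.inl (k, j)) := by
  have hi := i.isLt
  have hj := j.isLt
  suffices H : ∃ (α p u a : Fin 4 → ℕ) (ω c : ℕ), p k = i.val ∧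
      (∀ k, α k < 4 ∧ u k < 4 ∧ a k < 4) ∧ ω < 4 ∧ c < 4 ∧ ∀ s t, R M s t →
      col M α p u a ω k j.val c s = col M α p u a ω k j.val c t →
      (∃ i' j', s = .inl (k, i') ∧ t = .inr (.inl (k, j')) ∧ i'.val = p k ∧ j'.val = j.val) ∨
      (False ∧ ∃ i, s = .inl (2, i) ∧ t = .inr (.inr ()) ∧ i.val = p 2) by
    obtain ⟨α, p, u, a, ω, c, e, b1, b2, b3, H⟩ := H
    refine ⟨fun s => ⟨col M α p u a ω k j.val c s, col_lt M α p u a ω k j.val c 4 (by omega) b1 b2 b3 s⟩,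
      fun s t hR h => ?_⟩
    rcases H s t hR (congrArg Fin.val h) with ⟨i', j', rfl, rfl, e1, e2⟩ | ⟨h, _⟩
    · rw [Fin.ext (e1.trans e), Fin.ext e2]
      exact ⟨rfl, rfl⟩
    · exact h.elim
  fin_cases k
  · refine ⟨![1, 1, 1, 0], ![i.val, 0, M, j.val], ![0, 0, 0, 1], ![2, 2, 2, 2], 1, 0, rfl,
      by decide, by decide, by decide, ?_⟩
    apply col_ok (hM := hM)
    · intro k; fin_cases k <;> simp <;> omega
    · decide
    · decide
    · decide
    · decide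
    · intro k; fin_cases k <;> simp
    · intro k; fin_cases k <;> simp
    · intro k; fin_cases k <;> simp
    · simp
  · by_cases h1 : j.val = 1
    · refine ⟨![0, 1, 1, 0], ![j.val, i.val, M, 0], ![1, 2, 0, 1], ![2, 0, 2, 2], 1, 2, rfl,
        by decide, by decide, by decide, ?_⟩
      apply col_ok (hM := hM)
      · intro k; fin_cases k <;> simp <;> omega
      · decide
      · decide
      · decide
      · decide
      · intro k; fin_cases k <;> simp
      · intro k; fin_cases k <;> simp [h1]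
      · intro k; fin_cases k <;> simp
      · simp [h1]
    · refine ⟨![0, 1, 1, 0], ![j.val, i.val, M, 0], ![1, 0, 0, 1], ![2, 2, 2, 2], 1, 0, rfl,
        by decide, by decide, by decide, ?_⟩
      apply col_ok (hM := hM)
      · intro k; fin_cases k <;> simp <;> omega
      · decide
      · decide
      · decide
      · decide
      · intro k; fin_cases k <;> simp
      · intro k; fin_cases k <;> simp
      · intro k; fin_cases k <;> simp
      · simp [Ne.symm h1]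
  · refine ⟨![0, 1, 0, 0], ![M + 2, j.val, i.val, 0], ![1, 0, 1, 1], ![2, 2, 2, 2], 0, 1, rfl,
      by decide, by decide, by decide, ?_⟩
    apply col_ok (hM := hM)
    · intro k; fin_cases k <;> simp <;> omega
    · decide
    · decide
    · decide
    · decide
    · intro k; fin_cases k <;> simp
    · intro k; fin_cases k <;> simp
    · intro k; fin_cases k <;> simp
    · simp
  · by_cases h1 : j.val = 1
    · refine ⟨![0, 1, 1, 0], ![M + 2, 0, j.val, i.val], ![1, 0, 0, 2], ![2, 2, 2, 1], 0, 2, rfl,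
        by decide, by decide, by decide, ?_⟩
      apply col_ok (hM := hM)
      · intro k; fin_cases k <;> simp <;> omega
      · decide
      · decide
      · decide
      · decide
      · intro k; fin_cases k <;> simp
      · intro k; fin_cases k <;> simp [h1]
      · intro k; fin_cases k <;> simp
      · simp [h1]
    · refine ⟨![0, 1, 1, 0], ![M + 2, 0, j.val, i.val], ![1, 0, 0, 1], ![2, 2, 2, 2], 0, 1, rfl,
        by decide, by decide, by decide, ?_⟩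
      apply col_ok (hM := hM)
      · intro k; fin_cases k <;> simp <;> omega
      · decide
      · decide
      · decide
      · decide
      · intro k; fin_cases k <;> simp
      · intro k; fin_cases k <;> simp
      · intro k; fin_cases k <;> simp
      · simp [Ne.symm h1]

lemma wcol (M : ℕ) (hM : 2 ≤ M) (i ω : ℕ) (hi : M ≤ i) (hi' : i ≤ 2 * M) (hω : ω = 0 ∨ ω = 4) :
    ∀ s t, R M s t →
      col M ![0, 1, 1, 0] ![M + 2, 0, i, 0] ![1, 0, 0, 1] ![2, 2, 2, 2] ω 2 M 1 s =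
      col M ![0, 1, 1, 0] ![M + 2, 0, i, 0] ![1, 0, 0, 1] ![2, 2, 2, 2] ω 2 M 1 t →
      ω = 0 ∧ ∃ i', s = .inl (2, i') ∧ t = .inr (.inr ()) ∧ i'.val = i := by
  intro s t hR h
  have := col_ok M ![0, 1, 1, 0] ![M + 2, 0, i, 0] ![1, 0, 0, 1] ![2, 2, 2, 2] ω 2 M 1 (ω = 0) hM
    (by intro k; fin_cases k <;> simp <;> omega) (by decide) (by decide) (by decide) (by decide)
    (by intro k; fin_cases k <;> simp; omega) (by intro k; fin_cases k <;> simp)
    (by intro k; fin_cases k <;> simp <;> omega) (by simp) s t hR h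
  rcases this with ⟨_, j, _, _, _, e⟩ | h
  · have := j.isLt; omega
  · exact h

lemma odd_cycle (M : ℕ) (f : Fin (2 * M + 1) → Fin 4) (s t : Fin 4) (hst : s ≠ t)
    (hf : ∀ i i' : Fin (2 * M + 1), (i'.val = i.val + 1 ∨ (i.val = 2 * M ∧ i'.val = 0)) → f i ≠ f i') :
    ∃ i, f i = s ∨ f i = t := by
  by_contra hc
  push Not at hc
  have two : ∀ s t x y z : Fin 4, s ≠ t → x ≠ s → x ≠ t → y ≠ s → y ≠ t → z ≠ s → z ≠ t →
      x ≠ y → y ≠ z → x = z := by decide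
  have key : ∀ r (h : 2 * r < 2 * M + 1), f ⟨2 * r, h⟩ = f ⟨0, by omega⟩ := by
    intro r
    induction r with
    | zero => intro h; rfl
    | succ r ih =>
      intro h
      rw [← ih (by omega)]
      symm
      refine two s t _ (f ⟨2 * r + 1, by omega⟩) _ hst (hc _).1 (hc _).2 (hc _).1 (hc _).2
        (hc _).1 (hc _).2 (hf _ _ (Or.inl rfl)) (hf _ _ (Or.inl rfl))
  exact hf ⟨2 * M, by omega⟩ ⟨0, by omega⟩ (Or.inr ⟨rfl, rfl⟩) (key M (by omega))

lemma not_col (M : ℕ) (hM : 2 ≤ M) (φ : V M → Fin 4) : ∃ a b, R M a b ∧ φ a = φ b := by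
  by_contra hc
  push Not at hc
  have cyc : ∀ (k s t : Fin 4), s ≠ t → ∃ i, φ (.inl (k, i)) = s ∨ φ (.inl (k, i)) = t :=
    fun k s t hst => odd_cycle M (fun i => φ (.inl (k, i))) s t hst
      (fun i i' h => hc _ _ ⟨rfl, h⟩)
  let j0 : Fin M := ⟨0, by omega⟩
  let α : Fin 4 → Fin 4 := fun k => φ (.inr (.inl (k, j0)))
  have hd : ∀ k i j, φ (.inl (k, i)) ≠ φ (.inr (.inl (k, j))) := fun k i j => hc _ _ (Or.inl rfl)
  have mono : ∀ k j, φ (.inr (.inl (k, j))) = α k := by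
    intro k j
    by_contra h
    obtain ⟨i, hi | hi⟩ := cyc k _ _ h
    · exact hd k i j hi
    · exact hd k i j0 hi
  have hsrc : ∀ (k : Fin 4) (i : Fin (2 * M + 1)),
      (i.val < M ∨ k.val % 2 = 1 ∨ (k.val = 0 ∧ i.val ≤ M + 1)) → φ (.inl (k, i)) ≠ α (k + 1) := by
    intro k i h
    by_cases hi : i.val < M
    · rw [← mono (k + 1) ⟨i.val, hi⟩]
      exact hc _ _ (Or.inr ⟨rfl, Or.inl rfl⟩)
    · exact hc _ _ (Or.inr ⟨rfl, Or.inr ⟨by omega, rfl, by omega⟩⟩)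
  have hw : ∀ (k : Fin 4) (i : Fin (2 * M + 1)), k.val % 2 = 0 → M ≤ i.val →
      φ (.inl (k, i)) ≠ φ (.inr (.inr ())) := fun k i h1 h2 => hc _ _ ⟨h1, h2⟩
  have hodd : ∀ k : Fin 4, k.val % 2 = 1 → α (k + 1) = α k := by
    intro k hk
    by_contra h
    obtain ⟨i, hi | hi⟩ := cyc k _ _ h
    · exact hsrc k i (Or.inr (Or.inl hk)) hi
    · exact hd k i j0 hi
  have heven : ∀ k : Fin 4, k.val % 2 = 0 → α (k + 1) = φ (.inr (.inr ())) → α (k + 1) = α k := by
    intro k hk e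
    by_contra h
    obtain ⟨i, hi | hi⟩ := cyc k _ _ h
    · by_cases hi' : i.val < M
      · exact hsrc k i (Or.inl hi') hi
      · exact hw k i hk (by omega) (hi.trans e)
    · exact hd k i j0 hi
  have hE : α 1 ≠ α 3 := by
    rw [← mono 1 ⟨1, by omega⟩, ← mono 3 ⟨1, by omega⟩]
    exact hc _ _ ⟨rfl, rfl, rfl, rfl⟩
  have e1 : α 2 = α 1 := hodd 1 (by decide)
  have e3 : α 0 = α 3 := hodd 3 (by decide)
  have e0 : α 1 = φ (.inr (.inr ())) → α 1 = α 0 := heven 0 (by decide)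
  have e2 : α 3 = φ (.inr (.inr ())) → α 3 = α 2 := heven 2 (by decide)
  have u1 : φ (.inl (0, ⟨M, by omega⟩)) ≠ α 1 := hsrc 0 _ (Or.inr (Or.inr ⟨rfl, by simp⟩))
  have v1 : φ (.inl (0, ⟨M + 1, by omega⟩)) ≠ α 1 := hsrc 0 _ (Or.inr (Or.inr ⟨rfl, by simp⟩))
  have u2 := hw 0 ⟨M, by omega⟩ rfl (by simp)
  have v2 := hw 0 ⟨M + 1, by omega⟩ rfl (by simp)
  have u3 : φ (.inl (0, ⟨M, by omega⟩)) ≠ α 0 := hd _ _ _
  have v3 : φ (.inl (0, ⟨M + 1, by omega⟩)) ≠ α 0 := hd _ _ _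
  have uv : φ (.inl (0, ⟨M, by omega⟩)) ≠ φ (.inl (0, ⟨M + 1, by omega⟩)) :=
    hc _ _ ⟨rfl, Or.inl rfl⟩
  have fin : ∀ a0 a1 a2 a3 w x y : Fin 4, a1 ≠ a3 → a2 = a1 → a0 = a3 → (a1 = w → a1 = a0) →
      (a3 = w → a3 = a2) → x ≠ a1 → y ≠ a1 → x ≠ w → y ≠ w → x ≠ a0 → y ≠ a0 → x = y := by
    intro a0 a1 a2 a3 w x y h1 h2 h3
    subst h2 h3
    intro h4 h5 h6 h7 h8 h9 h10 h11
    rw [Fin.ext_iff]
    simp only [ne_eq, Fin.ext_iff] at *
    omega
  exact uv (fin _ _ _ _ _ _ _ hE e1 e3 e0 e2 u1 v1 u2 v2 u3 v3)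

theorem main (M : ℕ) (hM : 2 ≤ M) :
    ∃ G : SimpleGraph (Fin (Fintype.card (V M))), G.Colorable (4 + 1) ∧ ¬ G.Colorable 4 ∧
      (∀ e ∈ G.edgeSet, (G.deleteEdges {e}).Colorable 4) ∧
      ∀ v, M ≤ (G.neighborSet v).ncard := by
  apply generic (R M) 4 M
  · refine ⟨fun s => ⟨_, col_lt M ![0, 1, 1, 0] ![M + 2, 0, M, 0] ![1, 0, 0, 1] ![2, 2, 2, 2] 4 2 M 1
      (4 + 1) (by omega) (by decide) (by omega) (by omega) s⟩, fun s t hR h => ?_⟩
    have := (wcol M hM M 4 le_rfl (by omega) (Or.inr rfl) s t hR (congrArg Fin.val h)).1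
    omega
  · exact not_col M hM
  · rintro (⟨k, i⟩ | ⟨k, j⟩ | w)
    · refine ⟨Finset.univ.image (fun j : Fin M => .inr (.inl (k, j))), ?_, fun u hu => ?_⟩
      · rw [Finset.card_image_of_injective _ (fun a b h => by simpa using h)]
        simp
      · obtain ⟨j, _, rfl⟩ := Finset.mem_image.1 hu
        obtain ⟨φ, h⟩ := dense M hM k i j
        exact ⟨φ, fun a b h1 h2 => Or.inl (h a b h1 h2)⟩
    · refine ⟨Finset.univ.image (fun i : Fin (2 * M + 1) => .inl (k, i)), ?_, fun u hu => ?_⟩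
      · rw [Finset.card_image_of_injective _ (fun a b h => by simpa using h)]
        simp; omega
      · obtain ⟨i, _, rfl⟩ := Finset.mem_image.1 hu
        obtain ⟨φ, h⟩ := dense M hM k i j
        exact ⟨φ, fun a b h1 h2 => Or.inr (h a b h1 h2)⟩
    · refine ⟨Finset.univ.image (fun j : Fin M => .inl (2, ⟨M + j.val, by omega⟩)), ?_,
        fun u hu => ?_⟩
      · rw [Finset.card_image_of_injective _ (fun a b h => by simpa [Fin.ext_iff] using h)]
        simp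
      · obtain ⟨j, _, rfl⟩ := Finset.mem_image.1 hu
        refine ⟨fun s => ⟨_, col_lt M ![0, 1, 1, 0] ![M + 2, 0, M + j.val, 0] ![1, 0, 0, 1]
          ![2, 2, 2, 2] 0 2 M 1 4 (by omega) (by decide) (by omega) (by omega) s⟩,
          fun s t hR h => ?_⟩
        obtain ⟨_, i', rfl, rfl, e⟩ := wcol M hM (M + j.val) 0 (by omega) (by omega) (Or.inl rfl)
          s t hR (congrArg Fin.val h)
        refine Or.inr ⟨?_, rfl⟩
        congr 2
        exact Fin.ext e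

lemma card_V (M : ℕ) : Fintype.card (V M) = 12 * M + 5 := by
  simp [V]; ring

end Pool.Agent.H.MP_2b0d5b_co
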